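import Pool.Agent.helper84.TP.SpecA

/-! Row SUP (finitely many statements are enough). -/

namespace Pool.Agent.TP

open Function Turing Turing.PartrecToTM2 Relation

theorem SUP : SUP_stmt := by
  classical
  intro c
  obtain ⟨h1, h2⟩ := tr_supports c Cont'.halt
  set L : Finset Λ' := codeSupp c Cont'.halt with hL
  have h0 : trNormal c Cont'.halt ∈ L := h1
  refine ⟨{q | q = TM2.Stmt.halt ∨ ∃ l ∈ L, q ∈ TM2.stmts₁ (tr l)}, ?_, ?_, ?_, ?_⟩
  · have h3 : ({q | q = TM2.Stmt.halt ∨ ∃ l ∈ L, q ∈ TM2.stmts₁ (tr l)} : Set Sm) =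
        {TM2.Stmt.halt} ∪ ⋃ l ∈ L, ((TM2.stmts₁ (tr l) : Finset Sm) : Set Sm) := by
      ext q
      simp
    rw [h3]
    refine (Set.finite_singleton _).union ?_
    exact Set.Finite.biUnion L.finite_toSet (fun l _ => Finset.finite_toSet _)
  · exact Or.inr ⟨_, h0, TM2.stmts₁_self⟩
  · exact Or.inl rfl
  · have key : ∀ q q' : Sm, (q = TM2.Stmt.halt ∨ ∃ l ∈ L, q ∈ TM2.stmts₁ (tr l)) →
        q' ∈ TM2.stmts₁ q → (q' = TM2.Stmt.halt ∨ ∃ l ∈ L, q' ∈ TM2.stmts₁ (tr l)) := by
      intro q q' hq hq'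
      rcases hq with rfl | ⟨l, hl, hq⟩
      · left
        simpa [TM2.stmts₁] using hq'
      · exact Or.inr ⟨l, hl, TM2.stmts₁_trans hq hq'⟩
    have hgo : ∀ (f : Option Γ' → Λ') (v : Option Γ'),
        ((TM2.Stmt.goto f : Sm) = TM2.Stmt.halt ∨ ∃ l ∈ L, (TM2.Stmt.goto f : Sm) ∈ TM2.stmts₁ (tr l)) →
        f v ∈ L := by
      intro f v hq
      rcases hq with hq | ⟨l, hl, hq⟩
      · exact absurd hq (by simp)
      · have h4 := TM2.stmts₁_supportsStmt_mono hq (h2 l hl)
        exact h4 v
    intro q hq v S C' hC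
    simp only [Set.mem_setOf_eq] at hq ⊢
    cases q with
    | push k f q =>
      simp only [mic, Option.some.injEq] at hC
      subst hC
      exact key _ _ hq (by simp [TM2.stmts₁, TM2.stmts₁_self])
    | peek k f q =>
      simp only [mic, Option.some.injEq] at hC
      subst hC
      exact key _ _ hq (by simp [TM2.stmts₁, TM2.stmts₁_self])
    | pop k f q =>
      simp only [mic, Option.some.injEq] at hC
      subst hC
      exact key _ _ hq (by simp [TM2.stmts₁, TM2.stmts₁_self])
    | load a q =>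
      simp only [mic, Option.some.injEq] at hC
      subst hC
      exact key _ _ hq (by simp [TM2.stmts₁, TM2.stmts₁_self])
    | branch f q₁ q₂ =>
      simp only [mic, Option.some.injEq] at hC
      subst hC
      cases hf : f v
      · exact key _ _ hq (by simp [TM2.stmts₁, TM2.stmts₁_self])
      · exact key _ _ hq (by simp [TM2.stmts₁, TM2.stmts₁_self])
    | goto l =>
      simp only [mic, Option.some.injEq] at hC
      subst hC
      exact Or.inr ⟨l v, hgo l v hq, TM2.stmts₁_self⟩
    | halt =>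
      simp [mic] at hC

end Pool.Agent.TP
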