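import Pool.Agent.helper84.TP.Defs

/-!
# Triviality problem: basic lemmas (proved)
-/

set_option autoImplicit false

namespace Pool.Agent.TP

open Function

section words

variable {ι κ : Type*} {G G' : Type*} [Group G] [Group G']

theorem ev_nil (h : ι → G) : ev h [] = 1 := rfl

theorem ev_cons (h : ι → G) (p : ι × Bool) (w : List (ι × Bool)) :
    ev h (p :: w) = cond p.2 (h p.1) (h p.1)⁻¹ * ev h w := by
  simp only [ev, List.map_cons, List.prod_cons]

theorem ev_append (h : ι → G) (u w : List (ι × Bool)) : ev h (u ++ w) = ev h u * ev h w := by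
  simp only [ev, List.map_append, List.prod_append]

theorem ev_lt (h : ι → G) (i : ι) : ev h (lt i) = h i := by
  simp only [ev, lt, List.map_cons, List.map_nil, List.prod_cons, List.prod_nil, cond_true, mul_one]

theorem ev_eq_lift (h : ι → G) (w : List (ι × Bool)) :
    ev h w = FreeGroup.lift h (FreeGroup.mk w) := by
  rw [FreeGroup.lift_mk]
  rfl

theorem ev_iv (h : ι → G) (w : List (ι × Bool)) : ev h (iv w) = (ev h w)⁻¹ := by
  induction w with
  | nil => simp [iv, ev]
  | cons p w ih =>
    have h1 : iv (p :: w) = iv w ++ [(p.1, !p.2)] := by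
      simp only [iv, List.map_cons, List.reverse_cons]
    rw [h1, ev_append, ev_cons, ev_cons, ih, mul_inv_rev]
    congr 1
    rcases p with ⟨i, b⟩
    cases b <;> simp [ev]

theorem ev_cw (h : ι → G) (u w : List (ι × Bool)) : ev h (cw u w) = cm (ev h u) (ev h w) := by
  simp only [cw, cm, ev_append, ev_iv, mul_assoc]

theorem ev_flatten (h : ι → G) (L : List (List (ι × Bool))) :
    ev h L.flatten = (L.map (ev h)).prod := by
  induction L with
  | nil => rfl
  | cons w L ih => simp only [List.flatten_cons, ev_append, ih, List.map_cons, List.prod_cons]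

theorem ev_pw (h : ι → G) (w : List (ι × Bool)) (n : ℕ) : ev h (pw w n) = ev h w ^ n := by
  rw [pw, ev_flatten, List.map_replicate, List.prod_replicate]

theorem ev_sb (h : κ → G) (f : ι → List (κ × Bool)) (w : List (ι × Bool)) :
    ev h (sb f w) = ev (fun i => ev h (f i)) w := by
  induction w with
  | nil => rfl
  | cons p w ih =>
    rw [ev_cons, ← ih]
    simp only [sb, List.flatMap_cons, ev_append]
    congr 1
    rcases p with ⟨i, b⟩
    cases b
    · simp only [cond_false, ev_iv]
    · simp only [cond_true]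

theorem map_ev (f : G →* G') (h : ι → G) (w : List (ι × Bool)) :
    f (ev h w) = ev (fun i => f (h i)) w := by
  induction w with
  | nil => simp [ev]
  | cons p w ih =>
    rw [ev_cons, ev_cons, map_mul, ih]
    congr 1
    rcases p with ⟨i, b⟩
    cases b <;> simp

theorem map_cm (f : G →* G') (g h : G) : f (cm g h) = cm (f g) (f h) := by
  simp only [cm, map_mul, map_inv]

theorem cm_eq_one {g h : G} : cm g h = 1 ↔ Commute g h := by
  constructor
  · intro h1
    have h2 : g * h = h * g := by
      have h3 : h * g * cm g h = g * h := by simp only [cm]; group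
      rw [h1, mul_one] at h3
      exact h3.symm
    exact h2
  · intro h1
    have h2 : g * h = h * g := h1
    calc cm g h = (h * g)⁻¹ * (g * h) := by simp only [cm]; group
      _ = 1 := by rw [h2]; group

theorem ev_uW (h : κ → G) (p n : ℕ) (y : ℕ → List (κ × Bool)) (j : ℕ) (i : Fin n) :
    ev h (uW p n y j i) = ug p n (fun l => ev h (y l)) j i := by
  simp only [uW, ug, ev_cw]

theorem ev_RW (h : κ → G) (p n : ℕ) {N : ℕ} (r : Fin N → List (Fin n × Bool))
    (y : ℕ → List (κ × Bool)) : ev h (RW p n r y) = Rg p n r (fun l => ev h (y l)) := by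
  rw [RW, ev_flatten, List.map_ofFn, Rg]
  congr 1
  congr 1
  funext j
  simp only [Function.comp_apply, ev_sb, ev_uW]

theorem ev_VW (h : κ → G) (p n : ℕ) (y : ℕ → List (κ × Bool)) (w : List (Fin n × Bool)) :
    ev h (VW p n y w) = Vg p n (fun l => ev h (y l)) w := by
  rw [VW, ev_cw, Vg, ev_sb]
  simp only [ev_uW]

theorem map_ug (f : G →* G') (p n : ℕ) (y : ℕ → G) (j : ℕ) (i : Fin n) :
    f (ug p n y j i) = ug p n (fun l => f (y l)) j i := by
  simp only [ug, map_cm]

theorem map_Rg (f : G →* G') (p n : ℕ) {N : ℕ} (r : Fin N → List (Fin n × Bool)) (y : ℕ → G) :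
    f (Rg p n r y) = Rg p n r (fun l => f (y l)) := by
  rw [Rg, Rg, map_list_prod, List.map_ofFn]
  congr 1
  congr 1
  funext j
  simp only [Function.comp_apply, map_ev, map_ug]

theorem map_Vg (f : G →* G') (p n : ℕ) (y : ℕ → G) (w : List (Fin n × Bool)) :
    f (Vg p n y w) = Vg p n (fun l => f (y l)) w := by
  rw [Vg, Vg, map_cm, map_ev]
  simp only [map_ug]

theorem map_yy (f : G →* G') (t a : G) (i : ℕ) : f (yy t a i) = yy (f t) (f a) i := by
  simp only [yy, map_mul, map_inv, map_pow]

end words

section KG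

variable {D : Type}

theorem xK_add (u v : D → ℤ) : xK (u + v) = xK u * xK v := by
  simp only [xK, ofAdd_add, map_mul]

theorem xK_zero : xK (0 : D → ℤ) = 1 := by
  simp only [xK, ofAdd_zero, map_one]

theorem xK_tK (u v : D → ℤ) : (xK u)⁻¹ * tK v * xK u = tK (v + u) := by
  have h := SemidirectProduct.inl_aut (φ := shf D) (Multiplicative.ofAdd (-u)) (FreeGroup.of v)
  have h1 : (xK u)⁻¹ = SemidirectProduct.inr (Multiplicative.ofAdd (-u)) := by
    rw [xK, ← map_inv, ofAdd_neg]
  have h2 : xK u = SemidirectProduct.inr (Multiplicative.ofAdd (-u))⁻¹ := by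
    rw [xK, ofAdd_neg, inv_inv]
  rw [h1, tK, h2, ← h, tK]
  congr 1
  simp [shf, FreeGroup.freeGroupCongr_apply]

end KG

section WR

variable {T H : Type} [Group H]

theorem fn_mul (f g : T → H) : fn (f * g) = fn f * fn g := by simp only [fn, map_mul]

theorem fn_one : fn (1 : T → H) = 1 := by simp only [fn, map_one]

theorem fn_inv (f : T → H) : fn f⁻¹ = (fn f)⁻¹ := by simp only [fn, map_inv]

theorem fn_pow (f : T → H) (n : ℕ) : fn (f ^ n) = fn f ^ n := by simp only [fn, map_pow]

theorem fn_inj : Injective (fn : (T → H) → WR T H) := SemidirectProduct.inl_injective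

theorem pm_mul (σ ρ : Equiv.Perm T) : pm H (σ * ρ) = pm H σ * pm H ρ := by simp only [pm, map_mul]

theorem pm_pow (σ : Equiv.Perm T) (n : ℕ) : pm H (σ ^ n) = pm H σ ^ n := by
  simp only [pm, map_pow]

theorem pm_inv (σ : Equiv.Perm T) : pm H σ⁻¹ = (pm H σ)⁻¹ := by simp only [pm, map_inv]

theorem pm_inj : Injective (pm H : Equiv.Perm T → WR T H) := SemidirectProduct.inr_injective

theorem pm_fn (σ : Equiv.Perm T) (f : T → H) :
    (pm H σ)⁻¹ * fn f * pm H σ = fn (fun τ => f (σ τ)) := by
  have h := SemidirectProduct.inl_aut (φ := wra T H) σ⁻¹ f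
  rw [inv_inv] at h
  rw [← pm_inv, pm, fn, pm, ← h, fn]
  congr 1

end WR

end Pool.Agent.TP
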