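import Mathlib

/-!
# Triviality problem (MP_1a4948_lc): definitions

Words, their values in groups, commutators; the compression template; affine machines; the
permutational wreath product. Conventions: `g^h = h⁻¹ g h`, `cm g h = g⁻¹ h⁻¹ g h`.
-/

set_option autoImplicit false

namespace Pool.Agent.TP

open Function

/-! ## words -/

/-- The value of a word in a group. -/
def ev {ι : Type*} {G : Type*} [Group G] (h : ι → G) (w : List (ι × Bool)) : G :=
  (w.map fun p => cond p.2 (h p.1) (h p.1)⁻¹).prod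

/-- the inverse word -/
def iv {ι : Type*} (w : List (ι × Bool)) : List (ι × Bool) :=
  (w.map fun p => (p.1, !p.2)).reverse

/-- the commutator word `u⁻¹ w⁻¹ u w` -/
def cw {ι : Type*} (u w : List (ι × Bool)) : List (ι × Bool) := iv u ++ (iv w ++ (u ++ w))

/-- the power of a word -/
def pw {ι : Type*} (w : List (ι × Bool)) (n : ℕ) : List (ι × Bool) := (List.replicate n w).flatten

/-- substitution of words for the letters -/
def sb {ι κ : Type*} (f : ι → List (κ × Bool)) (w : List (ι × Bool)) : List (κ × Bool) :=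
  w.flatMap fun p => cond p.2 (f p.1) (iv (f p.1))

/-- the one letter word -/
def lt {ι : Type*} (i : ι) : List (ι × Bool) := [(i, true)]

/-- the commutator `g⁻¹ h⁻¹ g h` -/
def cm {G : Type*} [Group G] (g h : G) : G := g⁻¹ * h⁻¹ * g * h

/-! ## input data -/

/-- `w` is a consequence of the relators `r`: it is `1` in every group in which they are `1`. -/
def Cs {ι κ : Type} (r : κ → List (ι × Bool)) (w : List (ι × Bool)) : Prop :=
  ∀ (G : Type) [Group G] (h : ι → G), (∀ j, ev h (r j) = 1) → ev h w = 1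

/-- There is a group in which the relators `r` hold and `w` has infinite order. -/
def Md {ι κ : Type} (r : κ → List (ι × Bool)) (w : List (ι × Bool)) : Prop :=
  ∃ (G : Type) (_ : Group G) (h : ι → G), (∀ j, ev h (r j) = 1) ∧ ∀ m : ℕ, ev h w ^ (m + 1) ≠ 1

/-- A finite presentation with `n` generators and `N` relators with a computable family of words
`w e` such that `w e` is a consequence of the relators if `X e`, and has infinite order in some
group with these relators if not. -/
structure Inp (n N : ℕ) (r : Fin N → List (Fin n × Bool)) (w : ℕ → List (Fin n × Bool))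
    (X : ℕ → Prop) : Prop where
  comp : Computable w
  cons : ∀ e, X e → Cs r (w e)
  model : ∀ e, ¬ X e → Md r (w e)

/-! ## the compression template -/

/-- position of the generator `i` -/
def Cp (n i : ℕ) : ℕ := 3 * n + 3 + 3 * i

/-- the last position -/
def Dp (n : ℕ) : ℕ := 6 * n + 3

/-- the elements `u_i^(j) = [[y_(j + p C_i), y_j], y_(j+p)]` -/
def ug {G : Type*} [Group G] (p n : ℕ) (y : ℕ → G) (j : ℕ) (i : Fin n) : G :=
  cm (cm (y (j + p * Cp n i)) (y j)) (y (j + p))

/-- the words `u_i^(j)` -/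
def uW {κ : Type*} (p n : ℕ) (y : ℕ → List (κ × Bool)) (j : ℕ) (i : Fin n) : List (κ × Bool) :=
  cw (cw (y (j + p * Cp n i)) (y j)) (y (j + p))

/-- the product of the relators, the `j`-th one in the `(j+1)`-st block -/
def Rg {G : Type*} [Group G] (p n : ℕ) {N : ℕ} (r : Fin N → List (Fin n × Bool)) (y : ℕ → G) : G :=
  (List.ofFn fun j : Fin N => ev (ug p n y (j + 1)) (r j)).prod

/-- the same as a word -/
def RW {κ : Type*} (p n : ℕ) {N : ℕ} (r : Fin N → List (Fin n × Bool))
    (y : ℕ → List (κ × Bool)) : List (κ × Bool) :=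
  (List.ofFn fun j : Fin N => sb (uW p n y (j + 1)) (r j)).flatten

/-- the element `v = [w(u^(1)), y_(1 + p D)]` -/
def Vg {G : Type*} [Group G] (p n : ℕ) (y : ℕ → G) (w : List (Fin n × Bool)) : G :=
  cm (ev (ug p n y 1) w) (y (1 + p * Dp n))

/-- the same as a word -/
def VW {κ : Type*} (p n : ℕ) (y : ℕ → List (κ × Bool)) (w : List (Fin n × Bool)) :
    List (κ × Bool) :=
  cw (sb (uW p n y 1) w) (y (1 + p * Dp n))

/-- `k` generates the multiplicative group modulo `p ^ 2` -/
def Gen (p k : ℕ) : Prop := ∀ i : ℕ, ¬ p ∣ i → ∃ j : ℕ, k ^ j ≡ i [MOD p ^ 2]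

/-- the conjugates `a_i = t^-i a t^i` -/
def yy {G : Type*} [Group G] (t a : G) (i : ℕ) : G := (t ^ i)⁻¹ * a * t ^ i

/-! ## affine machines -/

/-- An instruction `P n + a ↦ q n + c` (`n` an integer vector, products coordinatewise). -/
structure Ins (D : Type) where
  P : D → ℕ
  a : D → ℕ
  q : D → ℕ
  c : D → ℕ

/-- left side of the instruction -/
def Ins.l {D : Type} (I : Ins D) (n : D → ℤ) : D → ℤ := fun j => I.P j * n j + I.a j

/-- right side of the instruction -/
def Ins.r {D : Type} (I : Ins D) (n : D → ℤ) : D → ℤ := fun j => I.q j * n j + I.c j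

/-- one step of the machine -/
def Stp {D : Type} {m : ℕ} (prog : Fin m → Ins D) (x y : D → ℤ) : Prop :=
  ∃ i n, x = (prog i).l n ∧ y = (prog i).r n

/-- natural vectors as integer vectors -/
def cz {D : Type} (x : D → ℕ) : D → ℤ := fun j => x j

/-! ## the finitely presented group of an affine machine -/

/-- letters: `x_j` (`j < d`), `t`, `k`, `s_i` (`i < m`) -/
abbrev Lt (d m : ℕ) : Type := Fin d ⊕ (Fin 2 ⊕ Fin m)

/-- the word `x^u` -/
def xW {d m : ℕ} (u : Fin d → ℕ) : List (Lt d m × Bool) :=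
  (List.ofFn fun j => pw (lt (Sum.inl j)) (u j)).flatten

/-- the word `t(u) = x^-u t x^u` -/
def tW {d m : ℕ} (u : Fin d → ℕ) : List (Lt d m × Bool) :=
  iv (xW u) ++ (lt (Sum.inr (Sum.inl 0)) ++ xW u)

/-- indices of the relators -/
abbrev Rt (d m : ℕ) : Type := (Fin d × Fin d) ⊕ (Fin m ⊕ ((Fin m × Fin d) ⊕ (Fin 1 ⊕ Fin m)))

/-- The relators: `[x_j, x_j']`; `s_i⁻¹ t(a_i) s_i t(c_i)⁻¹`; `s_i⁻¹ x_j^P s_i x_j^-q`; `[k, t(z)]`;
`[k, s_i]`. -/
def rel0 {d m : ℕ} (prog : Fin m → Ins (Fin d)) (z : Fin d → ℕ) : Rt d m → List (Lt d m × Bool)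
  | Sum.inl (j, j') => cw (lt (Sum.inl j)) (lt (Sum.inl j'))
  | Sum.inr (Sum.inl i) => iv (lt (Sum.inr (Sum.inr i))) ++ (tW (prog i).a ++
      (lt (Sum.inr (Sum.inr i)) ++ iv (tW (prog i).c)))
  | Sum.inr (Sum.inr (Sum.inl (i, j))) => iv (lt (Sum.inr (Sum.inr i))) ++
      (pw (lt (Sum.inl j)) ((prog i).P j) ++ (lt (Sum.inr (Sum.inr i)) ++
        iv (pw (lt (Sum.inl j)) ((prog i).q j))))
  | Sum.inr (Sum.inr (Sum.inr (Sum.inl _))) => cw (lt (Sum.inr (Sum.inl 1))) (tW z)
  | Sum.inr (Sum.inr (Sum.inr (Sum.inr i))) => cw (lt (Sum.inr (Sum.inl 1)))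
      (lt (Sum.inr (Sum.inr i)))

/-- the word `[k, t(u)]` -/
def w0 {d m : ℕ} (u : Fin d → ℕ) : List (Lt d m × Bool) := cw (lt (Sum.inr (Sum.inl 1))) (tW u)

/-! ## the group `F(Z^D) ⋊ Z^D` -/

/-- the shift action of `Z^D` on the free group over `Z^D` -/
def shf (D : Type) : Multiplicative (D → ℤ) →* MulAut (FreeGroup (D → ℤ)) where
  toFun u := FreeGroup.freeGroupCongr (Equiv.addRight (-u.toAdd))
  map_one' := by
    ext x
    rw [MulEquiv.coe_mk]
    simp [FreeGroup.freeGroupCongr_apply]
  map_mul' u v := by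
    ext x
    simp only [MulAut.mul_apply, FreeGroup.freeGroupCongr_apply, Equiv.coe_addRight, toAdd_mul,
      neg_add_rev, FreeGroup.map.comp]
    congr 1
    congr 1
    funext y
    simp only [Function.comp_apply, add_assoc]

/-- the group `F(Z^D) ⋊ Z^D` -/
abbrev KG (D : Type) : Type := FreeGroup (D → ℤ) ⋊[shf D] Multiplicative (D → ℤ)

/-- the element `t(v)` -/
def tK {D : Type} (v : D → ℤ) : KG D := SemidirectProduct.inl (FreeGroup.of v)

/-- the element `x^u` -/
def xK {D : Type} (u : D → ℤ) : KG D := SemidirectProduct.inr (Multiplicative.ofAdd u)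

/-- the subgroup generated by the `t(v)`, `v ∈ X` -/
def SX {D : Type} (X : Set (D → ℤ)) : Subgroup (KG D) := Subgroup.closure (tK '' X)

/-! ## permutational wreath products -/

/-- the action of `Perm T` on functions: `(σ f)(τ) = f(σ⁻¹ τ)` -/
def wra (T H : Type) [Group H] : Equiv.Perm T →* MulAut (T → H) where
  toFun σ :=
    { toFun := fun f τ => f (σ⁻¹ τ)
      invFun := fun f τ => f (σ τ)
      left_inv := fun f => by funext τ; simp
      right_inv := fun f => by funext τ; simp
      map_mul' := fun f g => by funext τ; rfl }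
  map_one' := by ext f τ; rfl
  map_mul' σ ρ := by ext f τ; rfl

/-- the permutational wreath product `H^T ⋊ Perm T` -/
abbrev WR (T H : Type) [Group H] : Type := (T → H) ⋊[wra T H] Equiv.Perm T

/-- functions as elements of the wreath product -/
def fn {T H : Type} [Group H] (f : T → H) : WR T H := SemidirectProduct.inl f

/-- permutations as elements of the wreath product -/
def pm {T : Type} (H : Type) [Group H] (σ : Equiv.Perm T) : WR T H := SemidirectProduct.inr σ

/-! ## Britton's lemma -/

/-- `ι : G → G'` is injective and Britton's lemma holds for the stable letter `s` with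
`s⁻¹ E s = F`: a product `g0 s^(±1) g1 s^(±1) ...` with at least one `s` and without
`s⁻¹ g s` (`g ∈ E`) and `s g s⁻¹` (`g ∈ F`) is not `1`. A pair `(true, g)` stands for `s g`, a pair
`(false, g)` for `s⁻¹ g`. -/
def Brit {G G' : Type} [Group G] [Group G'] (ι : G →* G') (s : G') (E F : Subgroup G) : Prop :=
  Injective ι ∧ ∀ (g0 : G) (l : List (Bool × G)), l ≠ [] →
    l.IsChain (fun p q => p.1 ≠ q.1 → p.2 ∉ cond p.1 F E) →
    ι g0 * (l.map fun p => cond p.1 s s⁻¹ * ι p.2).prod ≠ 1

end Pool.Agent.TP
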