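import Pool.Agent.helper84.TP.Basic

/-!
# Triviality problem, Spec A: machines and the group with unsolvable word problem (stage 0)

Goal of this file (row ST0): for every code `c` of Mathlib's `Turing.ToPartrec.Code` there are a
finite presentation and a computable family of words `w e` such that `w e` is a consequence of the
relators iff `c` halts on `[e]`, and has infinite order in some group satisfying the relators
otherwise. (Aanderaa-Cohen, with affine machines in dimension 5 instead of modular machines, and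
with a coset wreath product instead of the last HNN extension.)

Basic lemmas (`ev_append`, `ev_iv`, `ev_cw`, `ev_pw`, `ev_sb`, `map_ev`, `map_cm`, `cm_eq_one`,
`xK_tK`, `xK_add`, `pm_fn`, ...) are proved in `Basic.lean`.
-/

set_option autoImplicit false

namespace Pool.Agent.TP

open Function Turing Turing.PartrecToTM2 Relation

/-! ## Block M: machines -/

/-- ROW NRC (short). There is a recursively enumerable set of numbers which is not computable.
PROOF. `A e := (Nat.Partrec.Code.eval (Denumerable.ofNat Nat.Partrec.Code e) 0).Dom`. It is r.e. by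
`ComputablePred.halting_problem_re 0` composed with the computable map `ofNat`
(`Partrec.comp`, REPred unfolds to `Partrec fun a => Part.assert ..`). If it were computable,
composing with `Encodable.encode : Code → ℕ` (computable) would make
`fun c => (eval c 0).Dom` computable, against `ComputablePred.halting_problem 0`. -/
def NRC_stmt : Prop := ∃ A : ℕ → Prop, REPred A ∧ ¬ ComputablePred A

/-- ROW REC (short-medium). Every r.e. set of numbers is the domain of a code.
PROOF. `REPred A` says that `fun a => Part.assert (A a) fun _ => Part.some ()` is `Partrec`; map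
the value to `0 : ℕ`: `f : ℕ →. ℕ` partial recursive with `(f e).Dom ↔ A e`. By
`Nat.Partrec'.part_iff₁` (Mathlib, Mathlib.Computability.Halting / PartrecBasis) `fun v => f v.head`
is `Nat.Partrec'`, and `Turing.ToPartrec.Code.exists_code` gives `c` with
`c.eval v.1 = pure <$> f v.head` for every vector `v` of length 1; take `v = [e]`. -/
def REC_stmt : Prop := ∀ A : ℕ → Prop, REPred A → ∃ c : ToPartrec.Code, ∀ e, (c.eval [e]).Dom ↔ A e

/-- ROW HLT (short-medium). Halting with an empty output.
PROOF. Let `c' = ToPartrec.Code.comp ToPartrec.Code.nil c`: `c'.eval v = c.eval v >>= nil.eval` and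
`nil.eval v' = pure []` (`nil_eval`). So `(c'.eval [e]).Dom ↔ (c.eval [e]).Dom` and the value is
`[]`. By `PartrecToTM2.tr_eval`, `eval (TM2.step tr) (init c' [e]) = halt <$> c'.eval [e]`, and
`halt [] = ⟨none, none, K'.elim [] [] [] []⟩`. Use `StateTransition.mem_eval`:
`b ∈ eval f a ↔ Reaches f a b ∧ f b = none`. (If it reaches the configuration with label `none`,
which has no successor, this configuration is in `eval`, so the `Part` is defined.) -/
def HLT_stmt : Prop := ∀ c : ToPartrec.Code, ∃ c' : ToPartrec.Code, ∀ e : ℕ,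
  ((c.eval [e]).Dom ↔ StateTransition.Reaches (TM2.step tr) (PartrecToTM2.init c' [e])
    (⟨none, none, K'.elim [] [] [] []⟩ : Cfg'))

/-- statements of the TM2 machine -/
abbrev Sm : Type := TM2.Stmt (fun _ : K' => Γ') Λ' (Option Γ')

/-- micro configurations: a statement, the variable, the stacks -/
abbrev MC : Type := Sm × Option Γ' × (K' → List Γ')

/-- one elementary operation -/
def mic : MC → Option MC
  | (TM2.Stmt.push k f q, v, S) => some (q, v, update S k (f v :: S k))
  | (TM2.Stmt.peek k f q, v, S) => some (q, f v (S k).head?, S)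
  | (TM2.Stmt.pop k f q, v, S) => some (q, f v (S k).head?, update S k (S k).tail)
  | (TM2.Stmt.load a q, v, S) => some (q, a v, S)
  | (TM2.Stmt.branch f q₁ q₂, v, S) => some (cond (f v) q₁ q₂, v, S)
  | (TM2.Stmt.goto l, v, S) => some (tr (l v), v, S)
  | (TM2.Stmt.halt, _, _) => none

/-- ROW MIC (short-medium). The elementary operations simulate the steps.
PROOF. Let `R` relate `⟨some l, v, S⟩` with `(tr l, v, S)` and `⟨none, v, S⟩` with `(halt, v, S)`.
By induction on the statement `q`: if `TM2.stepAux q v S = ⟨l', v', S'⟩`, then `(q, v, S)` reaches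
(in zero or more micro steps, in one or more if `q ≠ halt`) the configuration related to it. Since
`tr l` is never the bare statement `halt` (cases on `l`), this gives
`StateTransition.Respects (TM2.step tr) mic R`. Now `(→)` is `StateTransition.tr_reaches`; for `(←)`
`(halt, v', S')` is in `eval mic (tr l, v, S)` (`mem_eval`), so by `tr_eval_rev` some `b₁` related
to it is in `eval (TM2.step tr) ⟨some l, v, S⟩`; `b₁` is `⟨none, v', S'⟩`, or `⟨some l', v', S'⟩`
with `tr l' = halt`, impossible. -/
def MIC_stmt : Prop := ∀ (l : Λ') (v : Option Γ') (S : K' → List Γ') (v' : Option Γ')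
  (S' : K' → List Γ'),
  (StateTransition.Reaches (TM2.step tr) (⟨some l, v, S⟩ : Cfg') (⟨none, v', S'⟩ : Cfg') ↔
    StateTransition.Reaches mic (tr l, v, S) (TM2.Stmt.halt, v', S'))

/-- ROW SUP (short-medium). Finitely many statements are enough.
PROOF. Let `L = codeSupp c Cont'.halt`. `tr_supports c Cont'.halt` says: `trNormal c Cont'.halt ∈ L`
(the default label) and `SupportsStmt L (tr l)` for `l ∈ L`. Put
`Q = {halt} ∪ ⋃ l ∈ L, stmts₁ (tr l)` (finite). Closure: a substatement of an element of `Q` is in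
`Q` (`stmts₁_trans`, `stmts₁_self`, definition of `stmts₁`); for `goto l`,
`stmts₁_supportsStmt_mono` gives `l v ∈ L`, so `tr (l v) ∈ Q`. -/
def SUP_stmt : Prop := ∀ c : ToPartrec.Code, ∃ Q : Set Sm, Q.Finite ∧
  tr (trNormal c Cont'.halt) ∈ Q ∧ (TM2.Stmt.halt : Sm) ∈ Q ∧
  ∀ q ∈ Q, ∀ v S C', mic (q, v, S) = some C' → C'.1 ∈ Q

/-- digits -/
def dg : Option Γ' → ℕ
  | none => 0
  | some Γ'.consₗ => 1
  | some Γ'.cons => 2
  | some Γ'.bit0 => 3
  | some Γ'.bit1 => 4

/-- the number of a stack (base 5, the top is the last digit) -/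
def num : List Γ' → ℕ
  | [] => 0
  | g :: l => dg (some g) + 5 * num l

/-- coordinates of the stacks -/
def kc : K' → Fin 5
  | K'.main => 1
  | K'.rev => 2
  | K'.aux => 3
  | K'.stack => 4

/-- the vector of a micro configuration; `ν` numbers the statements -/
def enc (ν : Sm → ℕ) (C : MC) : Fin 5 → ℤ :=
  ![(5 * ν C.1 + dg C.2.1 : ℕ), (num (C.2.2 K'.main) : ℕ), (num (C.2.2 K'.rev) : ℕ),
    (num (C.2.2 K'.aux) : ℕ), (num (C.2.2 K'.stack) : ℕ)]

/-- next statement and variable (`v` variable, `o` top of the stack used) -/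
def nx : Sm → Option Γ' → Option Γ' → Sm × Option Γ'
  | TM2.Stmt.push _ _ q, v, _ => (q, v)
  | TM2.Stmt.peek _ f q, v, o => (q, f v o)
  | TM2.Stmt.pop _ f q, v, o => (q, f v o)
  | TM2.Stmt.load a q, v, _ => (q, a v)
  | TM2.Stmt.branch f q₁ q₂, v, _ => (cond (f v) q₁ q₂, v)
  | TM2.Stmt.goto l, v, _ => (tr (l v), v)
  | TM2.Stmt.halt, v, _ => (TM2.Stmt.halt, v)

/-- the stack used and the four numbers `P, a, q, c` of its coordinate -/
def sop : Sm → Option Γ' → Option Γ' → Option (K' × ℕ × ℕ × ℕ × ℕ)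
  | TM2.Stmt.push k f _, v, _ => some (k, 1, 0, 5, dg (some (f v)))
  | TM2.Stmt.peek k _ _, _, o => some (k, 5, dg o, 5, dg o)
  | TM2.Stmt.pop k _ _, _, o => some (k, 5, dg o, 1, 0)
  | _, _, _ => none

/-- the instruction for statement `q`, variable `v`, top of the stack `o`; `B` bounds `ν` -/
def insOf (ν : Sm → ℕ) (B : ℕ) (q : Sm) (v o : Option Γ') : Ins (Fin 5) where
  P := fun j => if j = 0 then 5 * B else
    match sop q v o with
    | some (k, P, _, _, _) => if j = kc k then P else 1
    | none => 1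
  a := fun j => if j = 0 then 5 * ν q + dg v else
    match sop q v o with
    | some (k, _, a, _, _) => if j = kc k then a else 0
    | none => 0
  q := fun j => if j = 0 then 5 * B else
    match sop q v o with
    | some (k, _, _, q', _) => if j = kc k then q' else 1
    | none => 1
  c := fun j => if j = 0 then 5 * ν (nx q v o).1 + dg (nx q v o).2 else
    match sop q v o with
    | some (k, _, _, _, c) => if j = kc k then c else 0
    | none => 0

/-- ROW SIM (medium). The instruction performs the micro step.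
PROOF. Cases on `q`. Take `o = (S k).head?` for push / peek / pop on the stack `k` (`o = none`
otherwise), `n 0 = 0`, `n (kc k) = num (S k).tail` for peek and pop, `n j` = the coordinate of the
configuration otherwise. Use `num l = dg l.head? + 5 * num l.tail` for every list `l` (cases) and
the values of `Function.update`; check the five coordinates (`Fin.forall_fin_succ` or
`funext j; fin_cases j`), for each of the four stacks `k`. -/
def SIM_stmt : Prop := ∀ (ν : Sm → ℕ) (B : ℕ) (q : Sm) (v : Option Γ') (S : K' → List Γ') (C' : MC),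
  mic (q, v, S) = some C' → ∃ (o : Option Γ') (n : Fin 5 → ℤ),
    enc ν (q, v, S) = (insOf ν B q v o).l n ∧ enc ν C' = (insOf ν B q v o).r n

/-- ROW DTM (short-medium). Determinism of the instructions.
PROOF. Coordinate 0: `5 B n₀ + 5 ν q + dg v = 5 B n₀' + 5 ν q' + dg v'` with
`5 ν q + dg v < 5 B` (as `dg v ≤ 4`, `ν q < B`), so `n₀ = n₀'`, `5 ν q + dg v = 5 ν q' + dg v'`,
so `ν q = ν q'`, `dg v = dg v'` (both `< 5`), `q = q'`, `v = v'` (`dg` injective). Now cases on `q`:
for peek and pop coordinate `kc k` gives `5 n + dg o = 5 n' + dg o'`, so `o = o'`; for the other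
statements the instruction does not depend on `o`. In all cases the two instructions are equal, and
`n = n'` since all coefficients `P j` are positive; so the right sides are equal. -/
def DTM_stmt : Prop := ∀ (ν : Sm → ℕ) (B : ℕ) (q q' : Sm) (v v' o o' : Option Γ')
  (n n' : Fin 5 → ℤ), ν q < B → ν q' < B → (ν q = ν q' → q = q') →
  (insOf ν B q v o).l n = (insOf ν B q' v' o').l n' →
  q = q' ∧ v = v' ∧ (insOf ν B q v o).r n = (insOf ν B q' v' o').r n'

/-- ROW ENJ (short-medium). The encoding is injective.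
PROOF. `num` is injective on lists (induction: the last digit determines whether the list is empty,
and its first letter, as `dg (some g)` is between 1 and 4 and injective); coordinate 0 gives
`5 ν q + dg v = 5 ν q' + dg v'` with `dg ≤ 4`, so `ν q = ν q'` and `v = v'`; the other
coordinates give the stacks (`funext k; cases k`). -/
def ENJ_stmt : Prop := ∀ (ν : Sm → ℕ) (C C' : MC), (ν C.1 = ν C'.1 → C.1 = C'.1) →
  enc ν C = enc ν C' → C = C'

/-- ROW CNM (medium). The number of the input stack is computable.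
PROOF. Let `g e = num (trNat e ++ [cons])` (`trList [e] = trNat e ++ [cons]`). `trNat` is defined
through `Num`: `trNat 0 = []`, `trNat (2 m + 1) = bit1 :: trNat m`,
`trNat (2 m) = bit0 :: trNat m` for `m > 0` (casts `ℕ → Num`: `Num.ofNat'`, lemmas
`Num.ofNat'_bit`, `Num.bit0_of_bit0`, or prove by `Nat.binaryRec`). So `g 0 = 2` and for `e > 0`
`g e = (if e odd then 4 else 3) + 5 * g (e / 2)`. Use `Primrec.nat_strong_rec` (or
`Nat.Primrec` course-of-values), or bound: `g e` is the second component after `e` iterations of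
`(x, y, z) ↦ if x = 0 then (x, y, z) else (x / 2, y + z * digit, 5 z)`. -/
def CNM_stmt : Prop := Computable fun e : ℕ => num (trList [e])

/-- ROW MCH (medium). The affine machine of a code.
PROOF. Take `c'` from HLT and `Q` from SUP for `c'`. Enumerate the finite set `Q`: `ν : Sm → ℕ` with
`ν q < B` for `q ∈ Q` and injective on `Q`. The instructions are `insOf ν B q v o` for `q ∈ Q`,
`q ≠ halt`, `v o : Option Γ'`: a finite family, index it by `Fin m` (`Finite.equivFin`).
Positivity: clear (`B > 0`). Determinism: DTM. `z = enc ν (halt, none, empty)` as natural numbers;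
no instruction applies to any `enc ν (halt, v, S)`: by coordinate 0 as in DTM (write it as
`(insOf ν B halt v o).l n` for suitable `n`, `B > ν halt`, and apply DTM: `q = halt`, excluded).
`x0 e = enc ν (tr (trNormal c' Cont'.halt), none, (trList [e], [], [], []))`, computable by CNM.
If `c` halts on `[e]`: HLT, MIC give micro steps from the initial to the final configuration, all
statements stay in `Q`, and SIM turns each into a step of the machine. Conversely, by induction on
the path (`Relation.ReflTransGen.head_induction_on`, general start): if `enc ν C` (with `C.1 ∈ Q`)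
reaches `z` then `C` reaches `(halt, none, empty)` by micro steps: if `enc ν C = z` use ENJ; if
`enc ν C → y → ... → z`: `C.1 ≠ halt` (no instruction applies to `halt`), so `mic C = some C'`, by
SIM and determinism `y = enc ν C'`, and `C'.1 ∈ Q`. Then MIC and HLT. -/
def MCH_stmt : Prop := ∀ c : ToPartrec.Code, ∃ (m : ℕ) (prog : Fin m → Ins (Fin 5)) (z : Fin 5 → ℕ)
  (x0 : ℕ → Fin 5 → ℕ),
  (∀ i j, 0 < (prog i).P j ∧ 0 < (prog i).q j) ∧
  (∀ x y y', Stp prog x y → Stp prog x y' → y = y') ∧
  (∀ y, ¬ Stp prog (cz z) y) ∧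
  (∀ j, Computable fun e => x0 e j) ∧
  ∀ e, (ReflTransGen (Stp prog) (cz (x0 e)) (cz z) ↔ (c.eval [e]).Dom)

/-! ## Block G: groups -/

/-- ROW TKM (short-medium). Membership of `t(v)`.
PROOF. (←) clear. (→) Let `ρ : FreeGroup V →* FreeGroup V` send `of v` to `of v` for `v ∈ X` and to
`1` otherwise. `SX X` is the image under `inl` of `closure (of '' X)` (`MonoidHom.map_closure`),
`inl` is injective, so `of v ∈ closure (of '' X)`; `ρ` is the identity on this subgroup, so
`ρ (of v) = of v ≠ 1`, so `v ∈ X`. -/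
def TKM_stmt : Prop := ∀ (D : Type) (X : Set (D → ℤ)) (v : D → ℤ), tK v ∈ SX X ↔ v ∈ X

/-- ROW THE (medium). The injective endomorphisms `t(v) ↦ t(P v + a)`, `x^u ↦ x^(P u)`.
PROOF. Let `f v = P v + a` (coordinatewise), injective. `θ (w, u) = (map f w, P u)`
(`SemidirectProduct.lift` or `SemidirectProduct.map`; compatibility: `f (v - u) = f v - P u`).
Injective since `FreeGroup.map f` is (`FreeGroup.map_injective` or a left inverse) and `u ↦ P u`
is. Membership: `SX Y = {(w, 1) : w ∈ closure (of '' Y)}`. `θ (w, u) ∈ SX X` iff `P u = 0`, i.e.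
`u = 0`, and `map f w ∈ closure (of '' X)`; and this holds iff `w ∈ closure (of '' f⁻¹ X)`:
(←) clear; (→) let `ρ, ρ'` be the endomorphisms `of v ↦ of v` for `v ∈ X` (resp. `f v ∈ X`),
`↦ 1` otherwise: `ρ ∘ map f = map f ∘ ρ'`, and `ρ` is the identity on `closure (of '' X)`, so
`map f (ρ' w) = map f w`, `ρ' w = w`, and the range of `ρ'` is in `closure (of '' f⁻¹ X)`. -/
def THE_stmt : Prop := ∀ (D : Type) (P a : D → ℤ), (∀ j, P j ≠ 0) → ∃ θ : KG D →* KG D,
  Injective θ ∧ (∀ v, θ (tK v) = tK (fun j => P j * v j + a j)) ∧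
  (∀ u, θ (xK u) = xK (fun j => P j * u j)) ∧
  ∀ (X : Set (D → ℤ)) (h : KG D), θ h ∈ SX X ↔ h ∈ SX {n | (fun j => P j * n j + a j) ∈ X}

/-- ROW HNN (medium). HNN extensions with Britton's lemma, from Mathlib.
PROOF. `A = θ₁.range`, `B = θ₂.range`, `φ = (ofInjective θ₁)⁻¹ · ofInjective θ₂ : A ≃* B`
(`MonoidHom.ofInjective`), `G' = HNNExtension G A B φ`, `ι = of`, `s = t⁻¹`:
`HNNExtension.t_mul_of` gives `s⁻¹ ι(θ₁ h) s = ι(θ₂ h)`. `ι` is injective
(`HNNExtension.of_injective`). Britton: a list as in `Brit` is a `ReducedWord` (translate `true` to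
`-1`, `false` to `1 : ℤˣ`; `toSubgroup A B 1 = A`, `toSubgroup A B (-1) = B`); if its product were
`1 = of 1`, `ReducedWord.toList_eq_nil_of_mem_of_range` would give `toList = []`. `δ`: `lift 1` with
`t ↦ ofAdd (-1)`. -/
def HNN_stmt : Prop := ∀ (H G : Type) [Group H] [Group G] (θ₁ θ₂ : H →* G), Injective θ₁ →
  Injective θ₂ → ∃ (G' : Type) (_ : Group G') (ι : G →* G') (s : G'),
    (∀ h, s⁻¹ * ι (θ₁ h) * s = ι (θ₂ h)) ∧ Brit ι s θ₁.range θ₂.range ∧
    ∃ δ : G' →* Multiplicative ℤ, (∀ g, δ (ι g) = 1) ∧ δ s = Multiplicative.ofAdd 1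

/-- ROW GSL (medium). Good subgroups.
PROOF. `G', ι, s` from HNN, `S' = closure (ι '' S ∪ {s})`. Every element of `S'` is a product
`ι g0 s^(±1) ι g1 s^(±1) ...` with all `g_i ∈ S` (`Subgroup.closure_induction`: such products are
closed under multiplication and inverses). CLAIM: if such a product, with list of length `n`, is in
the range of `ι`, then it is `ι g` with `g ∈ S`. Strong induction on `n`; `n = 0` clear. Let the
product be `ι g'`; multiply the last letter (or `g0`) by `g'⁻¹` only for the test: the product times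
`ι g'⁻¹` is `1`, so by Britton the list is not reduced (the last group element, which is changed, is
not between two stable letters, so it does not matter): there are neighbours `(b, g), (!b, g'')`
with `g ∈ S` and `g ∈ F` (`b = true`) or `g ∈ E` (`b = false`). Then
`s ι g s⁻¹ = ι (θ₁ h)` if `g = θ₂ h`, resp. `s⁻¹ ι g s = ι (θ₂ h)` if `g = θ₁ h`, and the new element
is in `S` by hypothesis; merging gives a shorter list with letters in `S` and the same product. -/
def GSL_stmt : Prop := ∀ (H G : Type) [Group H] [Group G] (θ₁ θ₂ : H →* G) (S : Subgroup G),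
  Injective θ₁ → Injective θ₂ → (∀ h, θ₁ h ∈ S ↔ θ₂ h ∈ S) →
  ∃ (G' : Type) (_ : Group G') (ι : G →* G') (s : G') (S' : Subgroup G'), Injective ι ∧
    (∀ h, s⁻¹ * ι (θ₁ h) * s = ι (θ₂ h)) ∧ s ∈ S' ∧ ∀ g, ι g ∈ S' ↔ g ∈ S

/-- ROW ITR (short-medium). Finitely many stable letters.
PROOF. Induction on `m`. `m = 0`: `G' = G`. Step: for the first `m` pairs get `G₁, ι₁, s, S₁`; apply
GSL to `ι₁ ∘ θ₁ m`, `ι₁ ∘ θ₂ m`, `S₁` (the condition holds since `ι₁ g ∈ S₁ ↔ g ∈ S`); compose
(`Fin.snoc` / `Fin.lastCases`). -/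
def ITR_stmt : Prop := ∀ (m : ℕ) (H G : Type) [Group H] [Group G] (θ₁ θ₂ : Fin m → H →* G)
  (S : Subgroup G), (∀ i, Injective (θ₁ i)) → (∀ i, Injective (θ₂ i)) →
  (∀ i h, θ₁ i h ∈ S ↔ θ₂ i h ∈ S) →
  ∃ (G' : Type) (_ : Group G') (ι : G →* G') (s : Fin m → G') (S' : Subgroup G'), Injective ι ∧
    (∀ i h, (s i)⁻¹ * ι (θ₁ i h) * s i = ι (θ₂ i h)) ∧ (∀ i, s i ∈ S') ∧ ∀ g, ι g ∈ S' ↔ g ∈ S

/-- ROW COS (short-medium). Coset wreath product.
PROOF. `T = G ⧸ S`, `G' = WR T (Multiplicative ℤ)`, `ι g = pm (MulAction.toPermHom G T g)`,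
`k = fn δ` with `δ` = the generator at the coset `S` and `1` elsewhere. By `pm_fn`,
`(ι g)⁻¹ k (ι g) = fn (fun τ => δ (g • τ))`. For `g ∈ S` this is `k` (`g • τ = S` iff `τ = S`).
For `g ∉ S`: `cm k (ι g) = k⁻¹ (ι g)⁻¹ k (ι g) = fn f` with `f` = generator⁻¹ at the coset `S`
(since `g • S ≠ S`), so `f^(m+1)` is not `1` there. -/
def COS_stmt : Prop := ∀ (G : Type) [Group G] (S : Subgroup G),
  ∃ (G' : Type) (_ : Group G') (ι : G →* G') (k : G'), (∀ g ∈ S, Commute k (ι g)) ∧
    ∀ g, g ∉ S → ∀ m : ℕ, cm k (ι g) ^ (m + 1) ≠ 1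

/-- ROW EVK (short-medium). Evaluation of the words `x^u`, `t(u)` in images of `KG`.
PROOF. `ev h (xW u) = ∏ (f (xK e_j))^(u j)` (`ev_flatten`, `ev_pw`, `ev_lt`; `e_j = Pi.single j 1`)
`= f (xK (∑ u_j e_j)) = f (xK (cz u))` (`xK_add`; the range of `u ↦ xK u` is commutative: use the
hom `SemidirectProduct.inr` on `Multiplicative (Fin d → ℤ)` and `List.prod_ofFn`,
`Finset.univ_sum_single`). `ev h (tW u) = (f (xK u))⁻¹ f (tK 0) f (xK u) = f (tK (0 + u))` by
`xK_tK`. -/
def EVK_stmt : Prop := ∀ (d m : ℕ) (G : Type) [Group G] (f : KG (Fin d) →* G) (h : Lt d m → G),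
  (∀ j, h (Sum.inl j) = f (xK (Pi.single j 1))) → h (Sum.inr (Sum.inl 0)) = f (tK 0) →
  ∀ u : Fin d → ℕ, ev h (xW u) = f (xK (cz u)) ∧ ev h (tW u) = f (tK (cz u))

/-- ROW KGU (medium). Universal property of `KG`.
PROOF. The `x j` commute, so there is a hom `ρ : Multiplicative (Fin d → ℤ) →* G` with
`ρ (e_j) = x j` (`MonoidHom.noncommPiCoprod` of the homs `zpowersHom G (x j)`, or
`ρ u = (List.ofFn fun j => x j ^ u j).prod`). Let `f₁ = FreeGroup.lift (fun v => (ρ v)⁻¹ t ρ v)`.
`SemidirectProduct.lift f₁ ρ`: compatibility `f₁ (shf u w) = ρ u f₁ w (ρ u)⁻¹`, check on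
generators: `shf u (of v) = of (v - u)`, `(ρ (v-u))⁻¹ t ρ (v-u) = ρ u (ρ v)⁻¹ t (ρ v) (ρ u)⁻¹`. -/
def KGU_stmt : Prop := ∀ (d : ℕ) (G : Type) [Group G] (x : Fin d → G) (t : G),
  (∀ i j, Commute (x i) (x j)) → ∃ f : KG (Fin d) →* G,
    (∀ j, f (xK (Pi.single j 1)) = x j) ∧ f (tK 0) = t

/-- ROW GMD (medium). The model: if `u` does not reach `z`, then `[k, t(u)]` has infinite order in a
group satisfying the relators `rel0`.
PROOF. `X = {v | ReflTransGen (Stp prog) v (cz z)}`. For every instruction `i` and `n`: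
`(prog i).l n ∈ X ↔ (prog i).r n ∈ X` ((←) one step; (→) `l n ≠ cz z` since `z` is terminal and
`l n → r n`, so the path starts with a step `l n → y`, and `y = r n` by determinism). Let
`θ₁ i, θ₂ i : KG → KG` be given by THE for `(P, a)` and `(q, c)`; by THE and this equivalence
`θ₁ i h ∈ SX X ↔ θ₂ i h ∈ SX X`. ITR with `S = SX X` gives `G, ι, s, S'`; COS for `S'` gives
`G', ι', k`. Let `f = ι' ∘ ι : KG → G'`, `h x_j = f (xK e_j)`, `h t = f (tK 0)`, `h k = k`,
`h s_i = ι' (s i)`. Relators: the first by `xK_add`; the second: `ev (tW a_i) = f (tK a_i)` (EVK),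
`tK a_i = θ₁ (tK 0)`, `tK c_i = θ₂ (tK 0)`; the third: `xK (P_j e_j) = θ₁ (xK e_j)`, and
`ev (pw x_j n) = f (xK (n e_j))`; the fourth: `tK z ∈ SX X` (TKM), so `ι (tK z) ∈ S'` commutes with
`k`; the fifth: `s i ∈ S'`. `ev (w0 u) = cm k (f (tK u))`, `tK u ∉ SX X` by TKM, so
`ι (tK u) ∉ S'` and COS gives infinite order. -/
def GMD_stmt : Prop := ∀ (d m : ℕ) (prog : Fin m → Ins (Fin d)) (z u : Fin d → ℕ),
  (∀ i j, 0 < (prog i).P j ∧ 0 < (prog i).q j) →
  (∀ x y y', Stp prog x y → Stp prog x y' → y = y') → (∀ y, ¬ Stp prog (cz z) y) →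
  ¬ ReflTransGen (Stp prog) (cz u) (cz z) → Md (rel0 prog z) (w0 u)

/-- ROW GCS (medium). The consequence: if `u` reaches `z`, then `[k, t(u)] = 1` follows from the
relators.
PROOF. Let `h : Lt d m → G` satisfy the relators. The first relators say that the `h x_j` commute
(`cm_eq_one`); KGU gives `f : KG → G` with `f (xK e_j) = h x_j`, `f (tK 0) = h t`; EVK evaluates
`xW`, `tW`. Write `s = h s_i`, `T v = f (tK v)`. Relator 2: `s⁻¹ T(a_i) s = T(c_i)`. Relator 3:
`s⁻¹ f (xK (P_j e_j)) s = f (xK (q_j e_j))`, hence `s⁻¹ f (xK (P n)) s = f (xK (q n))` for all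
`n ∈ Z^d` (both sides are homs in `n`; additive induction over `n = ∑ n_j e_j`). So, by `xK_tK`,
`s⁻¹ T((prog i).l n) s = T((prog i).r n)`. Let `C` be the centralizer of `h k`; `s_i ∈ C`,
`T z ∈ C` (relators 4, 5). By induction on the path from `cz u` to `cz z`
(`ReflTransGen.head_induction_on`): `T v ∈ C` for all `v` on the path: `T v = s T(y) s⁻¹`. So
`ev h (w0 u) = cm (h k) (T u) = 1`. -/
def GCS_stmt : Prop := ∀ (d m : ℕ) (prog : Fin m → Ins (Fin d)) (z u : Fin d → ℕ),
  ReflTransGen (Stp prog) (cz u) (cz z) → Cs (rel0 prog z) (w0 (m := m) u)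

/-- ROW REI (short-medium). Reindexing by `Fin n`, `Fin N`.
PROOF. `E : ι ≃ Fin n` (`Fintype.equivFin`), `F : κ ≃ Fin N`; `r' j = (r (F.symm j)).map (E × id)`,
`w' e = (w e).map (E × id)`. `ev h' (l.map (E × id)) = ev (h' ∘ E) l`, and
`ev h l = ev (h ∘ E.symm) (l.map (E × id))`. Computability: `Primrec.list_map` with the primitive
recursive (finite domain, `Primrec.dom_finite` / `Primrec.dom_fintype`) map
`p ↦ (E p.1, p.2)`. -/
def REI_stmt : Prop := ∀ (ι κ : Type) [Fintype ι] [Fintype κ] [Primcodable ι]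
  (r : κ → List (ι × Bool)) (w : ℕ → List (ι × Bool)) (X : ℕ → Prop), Computable w →
  (∀ e, X e → Cs r (w e)) → (∀ e, ¬ X e → Md r (w e)) →
  ∃ (n N : ℕ) (r' : Fin N → List (Fin n × Bool)) (w' : ℕ → List (Fin n × Bool)), Inp n N r' w' X

/-- ROW CW0 (medium). The words `w0 (x0 e)` are computable.
PROOF. `xW u = (List.ofFn fun j => List.replicate (u j) (letter j)).flatten` up to flattening of
one letter words: `pw (lt i) n = List.replicate n (i, true)`. `e ↦ List.replicate (x0 e j) a` is
computable (`Computable.nat_rec` or `Primrec` of `n ↦ List.replicate n a`: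
`Primrec.list_replicate` if present, or `(List.range n).map (fun _ => a)`), `List.ofFn` over the
fixed `Fin d`: induction on `d` (`List.ofFn_succ`) with `Computable` of append; `iv` is
`List.reverse` of a `List.map` (primitive recursive), `cw` is a composition of appends. -/
def CW0_stmt : Prop := ∀ (d m : ℕ) (x0 : ℕ → Fin d → ℕ), (∀ j, Computable fun e => x0 e j) →
  Computable fun e => (w0 (x0 e) : List (Lt d m × Bool))

end Pool.Agent.TP
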